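import Pool.Agent.H667Z.Hyp.Main

set_option autoImplicit false

namespace Pool.Agent.Results.MP_459b8e_gt.ACounterexample

open Pool.Agent.H667Z.Hyp

/-- Two compact convex polyhedra of hyperbolic 3-space, each an irredundant intersection of `N`
closed halfspaces, such that every pairwise dihedral angle measure of the second is at least the
corresponding one of the first, and yet the first has the smaller volume. -/
theorem result : ∃ (N : ℕ) (p q : Fin N → Lor), IsPolyhedron p ∧ IsPolyhedron q ∧
    (∀ i j, i < j → dihedral (p i) (p j) ≤ dihedral (q i) (q j)) ∧
    hvol (poly p) < hvol (poly q) :=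
  counterexample

end Pool.Agent.Results.MP_459b8e_gt.ACounterexample
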